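import Mathlib
import Pool.Agent.H447R3.PF.Base

/-! Prescribed numbers of prime factors of `k` consecutive integers. -/

theorem Pool.Agent.Results.MP_a916dd_nt.PrimeFactorCounts.result :
    ∀ k : ℕ, ∃ r0 R : ℕ, ∀ r : Fin k → ℕ, (∀ i, r0 ≤ r i) →
      ∃ C : ℕ, {n : ℕ | ∀ i : Fin k, (n + i).primeFactors.card = r i ∧
        ∃ c s : ℕ, n + i = c * s ∧ c ≤ C ∧
          Squarefree s ∧ ∀ p : ℕ, p.Prime → p ∣ s → n ≤ p ^ R}.Infinite :=
  Pool.Agent.H447R3.PF.consecutive_infinite
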